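import Pool.Agent.Y716.C.Defs

/-!
# Systems of forms: few systems are degenerate modulo `Q`
-/

set_option autoImplicit false

namespace Pool.Agent.Y232.CS

open Pool.Agent.Y716.Q Pool.Agent.Y716.C Pool.Agent.Y278.Z8

variable {ι : Type*} [Fintype ι] {s : ℕ}

open scoped Classical in
/-- parameters of the perturbations -/
noncomputable def Par (Q : ℕ) (r : ι) (j₀ : Fin s) : Finset (Fin s → ι → ℤ) :=
  Fintype.piFinset (fun j => if j = j₀ then Fintype.piFinset (fun _ : ι => Finset.Icc (1 : ℤ) Q)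
    else (Finset.Icc (1 : ℤ) Q).image (fun b => Pi.single r b))

/-- representatives of the multipliers -/
noncomputable def Lv (Q : ℕ) (j₀ : Fin s) : Finset (Fin s → ℤ) :=
  Fintype.piFinset (fun j => if j = j₀ then {1} else Finset.Icc (1 : ℤ) Q)

theorem card_Par (Q : ℕ) (r : ι) (j₀ : Fin s) :
    (Par Q r j₀).card = Q ^ Fintype.card ι * (Lv Q j₀).card := by
  classical
  unfold Par Lv
  rw [Fintype.card_piFinset, Fintype.card_piFinset]
  have h1 : ∀ j : Fin s, (if j = j₀ then Fintype.piFinset (fun _ : ι => Finset.Icc (1 : ℤ) Q)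
      else (Finset.Icc (1 : ℤ) Q).image (fun b => (Pi.single r b : ι → ℤ))).card =
      (if j = j₀ then Q ^ Fintype.card ι else 1) *
        (if j = j₀ then ({1} : Finset ℤ) else Finset.Icc (1 : ℤ) Q).card := by
    intro j
    split_ifs
    · rw [Fintype.card_piFinset]
      simp
    · rw [Finset.card_image_of_injective _ (Pi.single_injective r), one_mul]
  have h2 : ∏ j : Fin s, (if j = j₀ then Q ^ Fintype.card ι else 1) = Q ^ Fintype.card ι := by
    rw [Finset.prod_ite_eq']
    simp
  calc _ = ∏ j : Fin s, ((if j = j₀ then Q ^ Fintype.card ι else 1) *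
        (if j = j₀ then ({1} : Finset ℤ) else Finset.Icc (1 : ℤ) Q).card) := by
        refine Finset.prod_congr rfl (fun j _ => ?_)
        rw [← h1 j]
    _ = _ := by rw [Finset.prod_mul_distrib, h2]

theorem card_Lv_pos (Q : ℕ) (hQ : 1 ≤ Q) (j₀ : Fin s) : 0 < (Lv Q j₀).card := by
  unfold Lv
  rw [Fintype.card_piFinset]
  refine Finset.prod_pos (fun j _ => ?_)
  split_ifs
  · simp
  · simp
    omega

theorem sys_inj (e : Fin s → ℕ) (r : ι) (R S : ℝ) (hS : 0 ≤ S)
    (P : (Fin s → MvPolynomial ι ℤ) → Prop) (B : Finset (Fin s → ι → ℤ))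
    (hB : ∀ c ∈ B, ∀ j i, |(c j i : ℝ)| ≤ S)
    (hP : ∀ f g, P f → P g → ∀ c ∈ B, ∀ c' ∈ B,
      (∀ j, pert (e j) r (c j) - pert (e j) r (c' j) = g j - f j) → c = c')
    [DecidablePred P] :
    ((sysZ ι e R).filter P).card * B.card ≤ (sysZ ι e (R + S)).card := by
  classical
  rw [← Finset.card_product]
  apply Finset.card_le_card_of_injOn (fun p j => p.1 j + pert (e j) r (p.2 j))
  · rintro ⟨f, c⟩ hp
    simp only [Finset.coe_product, Set.mem_prod, Finset.mem_coe] at hp
    simp only [Finset.mem_coe, mem_sysZ]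
    intro j
    apply IsF.add' (mem_sysZ.mp (Finset.mem_filter.mp hp.1).1 j)
    apply pert_isF _ _ hS
    exact hB c hp.2 j
  · rintro ⟨f, c⟩ hp ⟨f', c'⟩ hp' heq
    simp only [Finset.coe_product, Set.mem_prod, Finset.mem_coe] at hp hp'
    obtain ⟨hf, hc⟩ := hp
    obtain ⟨hf', hc'⟩ := hp'
    simp only at heq
    have hpe : ∀ j, pert (e j) r (c j) - pert (e j) r (c' j) = f' j - f j := by
      intro j
      have := congrFun heq j
      linear_combination this
    have hcc := hP f f' (Finset.mem_filter.mp hf).2 (Finset.mem_filter.mp hf').2 c hc c' hc' hpe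
    subst hcc
    have h2 : f = f' := by
      funext j
      have := congrFun heq j
      exact add_right_cancel this
    subst h2
    rfl

theorem eq_of_dvd_Icc {Q : ℕ} {a b : ℤ} (ha : a ∈ Finset.Icc (1 : ℤ) Q)
    (hb : b ∈ Finset.Icc (1 : ℤ) Q) (hd : (Q : ℤ) ∣ a - b) : a = b := by
  have h3 := Finset.mem_Icc.mp ha
  have h4 := Finset.mem_Icc.mp hb
  have h5 : a - b = 0 := by
    apply Int.eq_zero_of_abs_lt_dvd hd
    rw [abs_lt]
    constructor <;> omega
  omega

open scoped Classical in
theorem bad_fixed (e : Fin s → ℕ) (Q : ℕ) (R : ℝ) (r : ι) (x : ι → ℤ) (hx : x r = 1)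
    (j₀ : Fin s) (l : Fin s → ℤ) (hl : l j₀ = 1) :
    ((sysZ ι e R).filter (fun f => (∀ j, (Q : ℤ) ∣ MvPolynomial.eval x (f j)) ∧
      ∀ i, (Q : ℤ) ∣ ∑ j, l j * jac f x j i)).card * (Par Q r j₀).card ≤
      (sysZ ι e (R + Q)).card := by
  have hev : ∀ f : MvPolynomial ι ℤ, MvPolynomial.eval x f = MvPolynomial.aeval x f := by
    intro f; rw [MvPolynomial.aeval_eq_eval]
  have hQ0 : (0 : ℝ) ≤ (Q : ℝ) := by positivity
  have hmem : ∀ a ∈ Finset.Icc (1 : ℤ) Q, |(a : ℝ)| ≤ Q := by
    intro a ha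
    have h1 := Finset.mem_Icc.mp ha
    rw [abs_le]
    constructor
    · have : (0 : ℝ) ≤ (a : ℝ) := by exact_mod_cast (by omega : (0 : ℤ) ≤ a)
      linarith
    · exact_mod_cast h1.2
  have hPar : ∀ c ∈ Par Q r j₀, (∀ i, c j₀ i ∈ Finset.Icc (1 : ℤ) Q) ∧
      ∀ j, j ≠ j₀ → ∃ b ∈ Finset.Icc (1 : ℤ) Q, c j = Pi.single r b := by
    intro c hc
    unfold Par at hc
    rw [Fintype.mem_piFinset] at hc
    constructor
    · have h1 := hc j₀
      rw [if_pos rfl, Fintype.mem_piFinset] at h1
      exact h1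
    · intro j hj
      have h1 := hc j
      rw [if_neg hj, Finset.mem_image] at h1
      obtain ⟨b, hb, hb2⟩ := h1
      exact ⟨b, hb, hb2.symm⟩
  apply sys_inj e r R Q hQ0
  · intro c hc j i
    obtain ⟨h1, h2⟩ := hPar c hc
    by_cases hj : j = j₀
    · subst hj
      exact hmem _ (h1 i)
    · obtain ⟨b, hb, hb2⟩ := h2 j hj
      rw [hb2]
      by_cases hi : i = r
      · subst hi
        rw [Pi.single_eq_same]
        exact hmem _ hb
      · rw [Pi.single_eq_of_ne hi]
        simp
  · rintro f f' ⟨h1, h2⟩ ⟨h1', h2'⟩ c hc c' hc' hpe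
    obtain ⟨a1, a2⟩ := hPar c hc
    obtain ⟨a1', a2'⟩ := hPar c' hc'
    have hpe' : ∀ j, pert (e j) r (fun i => c j i - c' j i) = f' j - f j := by
      intro j
      rw [pert_sub]
      exact hpe j
    -- the rows different from j₀
    have hrow : ∀ j, j ≠ j₀ → c j = c' j := by
      intro j hj
      obtain ⟨b, hb, hb2⟩ := a2 j hj
      obtain ⟨b', hb', hb2'⟩ := a2' j hj
      have h3 := pert_aeval (e j) r (fun i => c j i - c' j i) x hx
      simp only [Int.cast_id] at h3
      have h4 : ∑ i, (c j i - c' j i) * x i = b - b' := by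
        rw [Finset.sum_eq_single r]
        · rw [hx, mul_one, hb2, hb2', Pi.single_eq_same, Pi.single_eq_same]
        · intro i _ hi
          rw [hb2, hb2', Pi.single_eq_of_ne hi, Pi.single_eq_of_ne hi, sub_self, zero_mul]
        · intro h; exact absurd (Finset.mem_univ r) h
      have h5 : b = b' := by
        apply eq_of_dvd_Icc hb hb'
        rw [← h4, ← h3, hpe', map_sub, ← hev, ← hev]
        exact dvd_sub (h1' j) (h1 j)
      rw [hb2, hb2', h5]
    have hff : ∀ j, j ≠ j₀ → f' j = f j := by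
      intro j hj
      have := hpe j
      rw [hrow j hj, sub_self] at this
      exact (sub_eq_zero.mp this.symm)
    have hne : ∀ i, i ≠ r → c j₀ i = c' j₀ i := by
      intro i hi
      apply eq_of_dvd_Icc (a1 i) (a1' i)
      have h3 := pert_pderiv (e j₀) r (fun i => c j₀ i - c' j₀ i) x hx hi
      simp only [Int.cast_id] at h3
      have h4 : ∑ j, l j * jac f' x j i - ∑ j, l j * jac f x j i = c j₀ i - c' j₀ i := by
        rw [← Finset.sum_sub_distrib, Finset.sum_eq_single j₀]
        · rw [hl, one_mul, one_mul]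
          unfold jac
          rw [hev, hev, ← map_sub, ← map_sub, ← hpe' j₀]
          exact h3
        · intro j _ hj
          unfold jac
          rw [hff j hj, sub_self]
        · intro h; exact absurd (Finset.mem_univ j₀) h
      rw [← h4]
      exact dvd_sub (h2' i) (h2 i)
    have hr : c j₀ r = c' j₀ r := by
      apply eq_of_dvd_Icc (a1 r) (a1' r)
      have h3 := pert_aeval (e j₀) r (fun i => c j₀ i - c' j₀ i) x hx
      simp only [Int.cast_id] at h3
      have h4 : ∑ i, (c j₀ i - c' j₀ i) * x i = c j₀ r - c' j₀ r := by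
        rw [Finset.sum_eq_single r]
        · rw [hx, mul_one]
        · intro i _ hi
          rw [hne i hi, sub_self, zero_mul]
        · intro h; exact absurd (Finset.mem_univ r) h
      rw [← h4, ← h3, hpe' j₀, map_sub, ← hev, ← hev]
      exact dvd_sub (h1' j₀) (h1 j₀)
    funext j
    by_cases hj : j = j₀
    · subst hj
      funext i
      by_cases hi : i = r
      · subst hi; exact hr
      · exact hne i hi
    · exact hrow j hj

theorem red_mem {Q : ℕ} (hQ : 1 ≤ Q) (a : ℤ) : (a - 1) % Q + 1 ∈ Finset.Icc (1 : ℤ) Q := by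
  have hQ0 : (0 : ℤ) < Q := by exact_mod_cast hQ
  have h3 := Int.emod_nonneg (a - 1) hQ0.ne'
  have h4 := Int.emod_lt_of_pos (a - 1) hQ0
  rw [Finset.mem_Icc]
  constructor <;> omega

theorem red_dvd (Q : ℕ) (a : ℤ) : (Q : ℤ) ∣ ((a - 1) % Q + 1) - a := by
  have h3 := Int.emod_add_mul_ediv (a - 1) Q
  exact ⟨-((a - 1) / Q), by linear_combination h3⟩

theorem bad_int (ι : Type*) [Fintype ι] {s : ℕ} (e : Fin s → ℕ) : BadCountInt ι e := by
  classical
  intro Q hQ R hR
  set k := Fintype.card ι with hk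
  have hqpos : 0 < Q ^ k := pow_pos hQ _
  set bad := (sysZ ι e R).filter (fun f => BadAtS Q f) with hbad
  set V : ι → Finset (ι → ℤ) := fun r =>
    (Fintype.piFinset (fun _ : ι => Finset.Icc (1 : ℤ) Q)).filter (fun x => x r = 1) with hV
  set F : (ι → ℤ) → (Fin s → ℤ) → Finset (Fin s → MvPolynomial ι ℤ) := fun x l =>
    (sysZ ι e R).filter (fun f => (∀ j, (Q : ℤ) ∣ MvPolynomial.eval x (f j)) ∧
      ∀ i, (Q : ℤ) ∣ ∑ j, l j * jac f x j i) with hF
  set N := (sysZ ι e (R + Q)).card with hN
  have hcov : bad ⊆ (Finset.univ : Finset ι).biUnion (fun r => (Finset.univ : Finset (Fin s)).biUnion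
      (fun j₀ => (V r).biUnion (fun x => (Lv Q j₀).biUnion (fun l => F x l)))) := by
    intro f hf
    obtain ⟨hf1, r, x, j₀, l, hxr, hlj, h1, h2⟩ := Finset.mem_filter.mp hf
    rw [Finset.mem_biUnion]
    refine ⟨r, Finset.mem_univ _, ?_⟩
    rw [Finset.mem_biUnion]
    refine ⟨j₀, Finset.mem_univ _, ?_⟩
    rw [Finset.mem_biUnion]
    refine ⟨fun i => (x i - 1) % Q + 1, ?_, ?_⟩
    · rw [hV, Finset.mem_filter, Fintype.mem_piFinset]
      refine ⟨fun i => red_mem hQ _, ?_⟩
      simp [hxr]
    rw [Finset.mem_biUnion]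
    refine ⟨fun j => (l j - 1) % Q + 1, ?_, ?_⟩
    · unfold Lv
      rw [Fintype.mem_piFinset]
      intro j
      by_cases hj : j = j₀
      · subst hj
        rw [if_pos rfl, Finset.mem_singleton, hlj]
        simp
      · rw [if_neg hj]
        exact red_mem hQ _
    · rw [hF, Finset.mem_filter]
      refine ⟨hf1, fun j => ?_, fun i => ?_⟩
      · have := dvd_add (eval_congr_dvd (f j) (fun i => red_dvd Q (x i))) (h1 j)
        simpa using this
      · have h3 : (Q : ℤ) ∣ ∑ j, ((l j - 1) % Q + 1) * jac f (fun i => (x i - 1) % Q + 1) j i -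
            ∑ j, l j * jac f x j i := by
          rw [← Finset.sum_sub_distrib]
          refine Finset.dvd_sum (fun j _ => ?_)
          have h4 : ((l j - 1) % Q + 1) * jac f (fun i => (x i - 1) % Q + 1) j i -
              l j * jac f x j i = ((l j - 1) % Q + 1) *
                (jac f (fun i => (x i - 1) % Q + 1) j i - jac f x j i) +
              (((l j - 1) % Q + 1) - l j) * jac f x j i := by ring
          rw [h4]
          refine dvd_add (Dvd.dvd.mul_left ?_ _) (Dvd.dvd.mul_right (red_dvd Q (l j)) _)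
          exact eval_congr_dvd (MvPolynomial.pderiv i (f j)) (fun i => red_dvd Q (x i))
        have := dvd_add h3 (h2 i)
        simpa using this
  have hone : ∀ (r : ι) (j₀ : Fin s), (∑ x ∈ V r, ∑ l ∈ Lv Q j₀, (F x l).card) * Q ≤ N := by
    intro r j₀
    have hL := card_Lv_pos Q hQ j₀
    have h1 : ((∑ x ∈ V r, ∑ l ∈ Lv Q j₀, (F x l).card) * Q) * (Q ^ k * (Lv Q j₀).card) ≤
        N * (Q ^ k * (Lv Q j₀).card) := by
      calc ((∑ x ∈ V r, ∑ l ∈ Lv Q j₀, (F x l).card) * Q) * (Q ^ k * (Lv Q j₀).card)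
          = (∑ x ∈ V r, ∑ l ∈ Lv Q j₀, (F x l).card * (Par Q r j₀).card) * Q := by
            rw [card_Par]
            simp only [← Finset.sum_mul]
            ring
        _ ≤ (∑ x ∈ V r, ∑ l ∈ Lv Q j₀, N) * Q := by
            apply Nat.mul_le_mul_right
            refine Finset.sum_le_sum (fun x hx => Finset.sum_le_sum (fun l hl => ?_))
            have hx1 : x r = 1 := (Finset.mem_filter.mp hx).2
            have hl1 : l j₀ = 1 := by
              unfold Lv at hl
              have := Fintype.mem_piFinset.mp hl j₀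
              rw [if_pos rfl, Finset.mem_singleton] at this
              exact this
            exact bad_fixed e Q R r x hx1 j₀ l hl1
        _ = ((V r).card * Q) * ((Lv Q j₀).card * N) := by
            rw [Finset.sum_const, Finset.sum_const, smul_eq_mul, smul_eq_mul]
            ring
        _ ≤ Q ^ k * ((Lv Q j₀).card * N) := Nat.mul_le_mul_right _ (card_norm_vecs Q r)
        _ = N * (Q ^ k * (Lv Q j₀).card) := by ring
    exact Nat.le_of_mul_le_mul_right h1 (Nat.mul_pos hqpos hL)
  calc bad.card * Q ≤ (∑ r : ι, ∑ j₀ : Fin s, ∑ x ∈ V r, ∑ l ∈ Lv Q j₀, (F x l).card) * Q := by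
        apply Nat.mul_le_mul_right
        refine (Finset.card_le_card hcov).trans (Finset.card_biUnion_le.trans ?_)
        refine Finset.sum_le_sum (fun r _ => Finset.card_biUnion_le.trans ?_)
        refine Finset.sum_le_sum (fun j₀ _ => Finset.card_biUnion_le.trans ?_)
        exact Finset.sum_le_sum (fun x _ => Finset.card_biUnion_le)
    _ = ∑ r : ι, ∑ j₀ : Fin s, (∑ x ∈ V r, ∑ l ∈ Lv Q j₀, (F x l).card) * Q := by
        simp only [Finset.sum_mul]
    _ ≤ ∑ _r : ι, ∑ _j₀ : Fin s, N :=
        Finset.sum_le_sum (fun r _ => Finset.sum_le_sum (fun j₀ _ => hone r j₀))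
    _ = k * s * N := by
        rw [Finset.sum_const, Finset.sum_const, Finset.card_univ, Finset.card_univ,
          Fintype.card_fin, smul_eq_mul, smul_eq_mul]
        ring

end Pool.Agent.Y232.CS
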